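import Mathlib
import Pool.Agent.E8helper47.OD.Edge

/-!
# Orientation degree vectors: the cases `p = 2` and `p = r - 2`

`f(n, r, p, 1) = C(n, p) - b(H(n, r), p)` for all `n` and `r ≥ 5`, if `p = 2` or `p = r - 2`.
-/

set_option autoImplicit false

open Finset

namespace Pool.Agent.Results.MP_e7cc07_co.PairsH47

/-- `D` is an orientation of the complete `r`-uniform hypergraph on the vertex set `Fin n`: for
every edge `E` (an `r`-subset) the vertices of `E` have different positions `D E v : Fin r` in `E`
(the value of `D E v` is of no importance if `E` is not an edge or `v` is not in `E`). -/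
def IsOrientation {n r : ℕ} (D : Finset (Fin n) → Fin n → Fin r) : Prop :=
  ∀ E : Finset (Fin n), E.card = r → Set.InjOn (D E) (E : Set (Fin n))

/-- The entry of the degree vector of `A` for the set of positions `P`: the number of the edges
`E ⊇ A` in which the set of positions of the vertices of `A` is exactly `P`. -/
def deg {n r : ℕ} (D : Finset (Fin n) → Fin n → Fin r) (A : Finset (Fin n))
    (P : Finset (Fin r)) : ℕ :=
  (univ.filter (fun E : Finset (Fin n) => E.card = r ∧ A ⊆ E ∧ A.image (D E) = P)).card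

/-- `f(D, p, 1)`: the number of the `p`-sets of vertices all of whose degrees are at least `1`. -/
def fD {n r : ℕ} (p : ℕ) (D : Finset (Fin n) → Fin n → Fin r) : ℕ :=
  (univ.filter (fun A : Finset (Fin n) =>
    A.card = p ∧ ∀ P : Finset (Fin r), P.card = p → 1 ≤ deg D A P)).card

/-- `B` is a family of `p`-sets of vertices and `c` is a colouring of it with (at most)
`C(r, p)` colours such that no edge is `p`-monochromatic: no edge has all its `p`-subsets in `B`
and all of the same colour. -/
def GoodColouring {n : ℕ} (r p : ℕ) (B : Finset (Finset (Fin n)))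
    (c : Finset (Fin n) → Fin (r.choose p)) : Prop :=
  (∀ A ∈ B, A.card = p) ∧
  ∀ E : Finset (Fin n), E.card = r → (∀ A ⊆ E, A.card = p → A ∈ B) →
    ¬ ∃ i, ∀ A ⊆ E, A.card = p → c A = i

/-- the values `f(D, p, 1)`, for all orientations `D`; the least of them is `f(n, r, p, 1)` -/
def FSet (n r p : ℕ) : Set ℕ :=
  {m | ∃ D : Finset (Fin n) → Fin n → Fin r, IsOrientation D ∧ fD p D = m}

/-- the sizes of the families with a good colouring; the largest of them is `b(H(n, r), p)` -/
def BSet (n r p : ℕ) : Set ℕ :=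
  {m | ∃ (B : Finset (Finset (Fin n))) (c : Finset (Fin n) → Fin (r.choose p)),
    GoodColouring r p B c ∧ B.card = m}

/-- the sets of positions with `p` elements, numbered -/
theorem exists_kappa (r p : ℕ) : ∃ κ : Fin (r.choose p) → Finset (Fin r),
    Function.Injective κ ∧ (∀ i, (κ i).card = p) ∧ ∀ P : Finset (Fin r), P.card = p → ∃ i, κ i = P := by
  have h : (powersetCard p (univ : Finset (Fin r))).card = r.choose p := by
    rw [card_powersetCard]; simp
  let e := Finset.equivFinOfCardEq h
  refine ⟨fun i => (e.symm i : Finset (Fin r)), ?_, ?_, ?_⟩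
  · intro i j hij
    exact e.symm.injective (Subtype.ext hij)
  · intro i
    exact (mem_powersetCard.mp (e.symm i).2).2
  · intro P hP
    refine ⟨e ⟨P, mem_powersetCard.mpr ⟨subset_univ _, hP⟩⟩, by simp⟩

/-- a good ordering of one edge -/
theorem exists_order {n r p : ℕ} (hr : 5 ≤ r) (hp : p = 2 ∨ p + 2 = r)
    (κ : Fin (r.choose p) → Finset (Fin r)) (hκi : Function.Injective κ)
    (hκc : ∀ i, (κ i).card = p) (B : Finset (Finset (Fin n)))
    (c : Finset (Fin n) → Fin (r.choose p)) (hB : GoodColouring r p B c)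
    (E : Finset (Fin n)) (hE : E.card = r) :
    ∃ f : Fin n → Fin r, Set.InjOn f (E : Set (Fin n)) ∧
      ∀ A ∈ B, A ⊆ E → A.image f ≠ κ (c A) := by
  classical
  have hr0 : 0 < r := by omega
  let e := Finset.equivFinOfCardEq hE
  -- the embedding of the positions in the edge
  let g : Fin r → Fin n := fun i => (e.symm i : Fin n)
  have hgE : ∀ i, g i ∈ E := fun i => (e.symm i).2
  have hginj : Function.Injective g := fun i j h => e.symm.injective (Subtype.ext h)
  let h : Fin n → Fin r := fun v => if hv : v ∈ E then e ⟨v, hv⟩ else ⟨0, hr0⟩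
  have hhg : ∀ i, h (g i) = i := by
    intro i
    simp only [h, hgE i, dif_pos]
    have : (⟨g i, hgE i⟩ : E) = e.symm i := Subtype.ext rfl
    rw [this, Equiv.apply_symm_apply]
  have hgh : ∀ v ∈ E, g (h v) = v := by
    intro v hv
    simp only [h, hv, dif_pos, g]
    rw [Equiv.symm_apply_apply]
  by_contra hcon
  push Not at hcon
  have hkill : ∀ σ : Equiv.Perm (Fin r),
      ∃ S ∈ univ.filter (fun S : Finset (Fin r) => S.image g ∈ B), S.card = p ∧
        S.image σ = κ (c (S.image g)) := by
    intro σ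
    obtain ⟨A, hAB, hAE, hA⟩ := hcon (fun v => σ (h v)) (by
      intro u hu v hv huv
      have h1 := σ.injective huv
      rw [← hgh u hu, ← hgh v hv, h1])
    have hSg : (A.image h).image g = A := by
      rw [image_image]
      ext v
      simp only [mem_image, Function.comp_apply]
      constructor
      · rintro ⟨u, hu, rfl⟩
        rw [hgh u (hAE hu)]
        exact hu
      · intro hv
        exact ⟨v, hv, hgh v (hAE hv)⟩
    refine ⟨A.image h, ?_, ?_, ?_⟩
    · rw [mem_filter, hSg]
      exact ⟨mem_univ _, hAB⟩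
    · have h2 := card_image_of_injective (A.image h) hginj
      rw [hSg, hB.1 A hAB] at h2
      exact h2.symm
    · rw [hSg, ← hA, image_image]
      rfl
  obtain ⟨h1, P, hP⟩ := Pool.Agent.E8helper47.OD.edge hr hp _ (fun S => κ (c (S.image g)))
    (fun _ => hκc _) hkill
  -- the sets `A ⊆ E` with `p` elements are images
  have hAS : ∀ A ⊆ E, A.card = p → ∃ S : Finset (Fin r), S.card = p ∧ S.image g = A := by
    intro A hAE hA
    have hSg : (A.image h).image g = A := by
      rw [image_image]
      ext v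
      simp only [mem_image, Function.comp_apply]
      constructor
      · rintro ⟨u, hu, rfl⟩
        rw [hgh u (hAE hu)]
        exact hu
      · intro hv
        exact ⟨v, hv, hgh v (hAE hv)⟩
    refine ⟨A.image h, ?_, hSg⟩
    have h2 := card_image_of_injective (A.image h) hginj
    rw [hSg, hA] at h2
    exact h2.symm
  have hpr : p ≤ r := by omega
  obtain ⟨S₀, -, hS₀⟩ := Finset.exists_subset_card_eq (s := (univ : Finset (Fin r))) (n := p)
    (by simpa using hpr)
  apply hB.2 E hE
  · intro A hAE hA
    obtain ⟨S, hS, rfl⟩ := hAS A hAE hA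
    have := h1 S hS
    rw [mem_filter] at this
    exact this.2
  · refine ⟨c (S₀.image g), fun A hAE hA => ?_⟩
    obtain ⟨S, hS, rfl⟩ := hAS A hAE hA
    apply hκi
    have e1 := hP S hS
    have e2 := hP S₀ hS₀
    exact e1.trans e2.symm

/-- the first inequality -/
theorem lower {n r p : ℕ} (hpr : p ≤ r) (κ : Fin (r.choose p) → Finset (Fin r))
    (hκc : ∀ i, (κ i).card = p)
    (hκs : ∀ P : Finset (Fin r), P.card = p → ∃ i, κ i = P)
    (D : Finset (Fin n) → Fin n → Fin r) (hD : IsOrientation D) :
    ∃ m ∈ BSet n r p, fD p D + m = n.choose p := by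
  classical
  have hpos : 0 < r.choose p := Nat.choose_pos hpr
  let B : Finset (Finset (Fin n)) := univ.filter (fun A : Finset (Fin n) =>
    A.card = p ∧ ¬ ∀ P : Finset (Fin r), P.card = p → 1 ≤ deg D A P)
  have hmiss : ∀ A : Finset (Fin n), ∃ i : Fin (r.choose p), A ∈ B → deg D A (κ i) = 0 := by
    intro A
    by_cases hA : A ∈ B
    · have h1 := (mem_filter.mp hA).2.2
      push Not at h1
      obtain ⟨P, hP, hP0⟩ := h1
      obtain ⟨i, rfl⟩ := hκs P hP
      exact ⟨i, fun _ => by omega⟩
    · exact ⟨⟨0, hpos⟩, fun h => absurd h hA⟩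
  choose c hc using hmiss
  refine ⟨B.card, ⟨B, c, ⟨fun A hA => (mem_filter.mp hA).2.1, ?_⟩, rfl⟩, ?_⟩
  · rintro E hE hEB ⟨i, hi⟩
    have hinj := hD E hE
    have himE : E.image (D E) = univ := by
      rw [← card_eq_iff_eq_univ, card_image_of_injOn hinj, hE, Fintype.card_fin]
    let A : Finset (Fin n) := E.filter (fun v => D E v ∈ κ i)
    have hAE : A ⊆ E := filter_subset _ _
    have hAim : A.image (D E) = κ i := by
      ext x
      simp only [A, mem_image, mem_filter]
      constructor
      · rintro ⟨v, ⟨_, hv⟩, rfl⟩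
        exact hv
      · intro hx
        have hx' : x ∈ E.image (D E) := by rw [himE]; exact mem_univ x
        obtain ⟨v, hv, rfl⟩ := mem_image.mp hx'
        exact ⟨v, ⟨hv, hx⟩, rfl⟩
    have hAc : A.card = p := by
      rw [← hκc i, ← hAim, card_image_of_injOn (hinj.mono (by exact_mod_cast hAE))]
    have h1 := hc A (hEB A hAE hAc)
    rw [hi A hAE hAc] at h1
    unfold deg at h1
    rw [card_eq_zero] at h1
    have h2 : E ∈ univ.filter (fun E : Finset (Fin n) =>
        E.card = r ∧ A ⊆ E ∧ A.image (D E) = κ i) := by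
      rw [mem_filter]
      exact ⟨mem_univ _, hE, hAE, hAim⟩
    rw [h1] at h2
    simp at h2
  · have h1 : n.choose p = (univ.filter (fun A : Finset (Fin n) => A.card = p)).card := by
      have h2 : univ.filter (fun A : Finset (Fin n) => A.card = p) = powersetCard p univ := by
        ext A
        simp [mem_powersetCard]
      rw [h2, card_powersetCard]
      simp
    rw [h1, ← Finset.card_filter_add_card_filter_not (s := univ.filter
      (fun A : Finset (Fin n) => A.card = p))
      (fun A : Finset (Fin n) => ∀ P : Finset (Fin r), P.card = p → 1 ≤ deg D A P),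
      filter_filter, filter_filter]
    rfl

/-- the second inequality -/
theorem upper {n r p : ℕ} (hr : 5 ≤ r) (hp : p = 2 ∨ p + 2 = r) (m : ℕ) (hm : m ∈ BSet n r p) :
    ∃ D : Finset (Fin n) → Fin n → Fin r, IsOrientation D ∧ fD p D + m ≤ n.choose p := by
  classical
  obtain ⟨B, c, hB, rfl⟩ := hm
  obtain ⟨κ, hκi, hκc, hκs⟩ := exists_kappa r p
  have hex : ∀ E : Finset (Fin n), ∃ f : Fin n → Fin r, E.card = r →
      (Set.InjOn f (E : Set (Fin n)) ∧ ∀ A ∈ B, A ⊆ E → A.image f ≠ κ (c A)) := by
    intro E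
    by_cases hE : E.card = r
    · obtain ⟨f, hf⟩ := exists_order hr hp κ hκi hκc B c hB E hE
      exact ⟨f, fun _ => hf⟩
    · exact ⟨fun _ => ⟨0, by omega⟩, fun h => absurd h hE⟩
  choose D hD using hex
  refine ⟨D, fun E hE => (hD E hE).1, ?_⟩
  have h0 : ∀ A ∈ B, deg D A (κ (c A)) = 0 := by
    intro A hA
    unfold deg
    rw [card_eq_zero, filter_eq_empty_iff]
    rintro E - ⟨hE, hAE, hAim⟩
    exact (hD E hE).2 A hA hAE hAim
  have h1 : n.choose p = (univ.filter (fun A : Finset (Fin n) => A.card = p)).card := by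
    have h2 : univ.filter (fun A : Finset (Fin n) => A.card = p) = powersetCard p univ := by
      ext A
      simp [mem_powersetCard]
    rw [h2, card_powersetCard]
    simp
  unfold fD
  rw [h1, ← card_union_of_disjoint]
  · apply card_le_card
    intro A hA
    rw [mem_union] at hA
    rcases hA with hA | hA
    · rw [mem_filter] at hA ⊢
      exact ⟨mem_univ _, hA.2.1⟩
    · rw [mem_filter]
      exact ⟨mem_univ _, hB.1 A hA⟩
  · rw [Finset.disjoint_left]
    intro A hA hAB
    rw [mem_filter] at hA
    have h2 := hA.2.2 (κ (c A)) (hκc _)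
    rw [h0 A hAB] at h2
    omega

/-- For all `n`, all `r ≥ 5` and `p = 2` or `p = r - 2`: `f(n, r, p, 1) = C(n, p) - b(H(n, r), p)`. -/
theorem result (n r p : ℕ) (hr : 5 ≤ r) (hp : p = 2 ∨ p + 2 = r) :
    ∃ f b : ℕ, IsLeast (FSet n r p) f ∧ IsGreatest (BSet n r p) b ∧ b ≤ n.choose p ∧
      f = n.choose p - b := by
  classical
  have hpr : p ≤ r := by omega
  obtain ⟨κ, hκi, hκc, hκs⟩ := exists_kappa r p
  have hbdd : ∀ m ∈ BSet n r p, m ≤ n.choose p := by
    intro m hm
    obtain ⟨D, -, h⟩ := upper hr hp m hm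
    omega
  -- there is an orientation, hence a family
  have hne : (BSet n r p).Nonempty := by
    refine ⟨0, ∅, fun _ => ⟨0, Nat.choose_pos hpr⟩, ⟨by simp, ?_⟩, by simp⟩
    rintro E hE hEB -
    obtain ⟨A, hAE, hA⟩ := Finset.exists_subset_card_eq (s := E) (n := p) (by omega)
    exact absurd (hEB A hAE hA) (notMem_empty A)
  have hbs : BddAbove (BSet n r p) := ⟨n.choose p, fun m hm => hbdd m hm⟩
  obtain ⟨b, hb⟩ : ∃ b, IsGreatest (BSet n r p) b :=
    ⟨sSup (BSet n r p), Nat.sSup_mem hne hbs, fun m hm => le_csSup hbs hm⟩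
  obtain ⟨D, hD, hDb⟩ := upper hr hp b hb.1
  have hlow : ∀ D' : Finset (Fin n) → Fin n → Fin r, IsOrientation D' →
      n.choose p ≤ fD p D' + b := by
    intro D' hD'
    obtain ⟨m, hm, h⟩ := lower hpr κ hκc hκs D' hD'
    have := hb.2 hm
    omega
  have h1 := hlow D hD
  refine ⟨fD p D, b, ⟨⟨D, hD, rfl⟩, ?_⟩, hb, hbdd b hb.1, by omega⟩
  rintro m ⟨D', hD', rfl⟩
  have h2 := hlow D' hD'
  omega

end Pool.Agent.Results.MP_e7cc07_co.PairsH47
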